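import Pool.Agent.L7h3.CE.Stm
import Pool.Agent.Helper391.Lg.P_packing
import Pool.Agent.Helper391.Lg.P_rk_supp
import Pool.Agent.Helper391.Lg.P_rk_full
import Pool.Agent.Helper391.Lg.P_functional

/-! Project CE (MP_7f38c2_co), part PACK: two edge-disjoint connected spanning subgraphs of the
quotient multigraph of a solid set (matroid union over `ZMod 2`). -/

namespace Pool.Agent.L7h96.CE
open Set Pool.Agent.Helper391.Lg Pool.Agent.L7h3.CE

universe u

/-- the unit vector of the colour of `v` -/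
def ph {V : Type*} (f : V → ℕ) (v : V) : ℕ → ZMod 2 := Pi.single (f v) 1

theorem ph_apply {V : Type*} (f : V → ℕ) (v : V) (z : ℕ) : ph f v z = if z = f v then 1 else 0 := by
  unfold ph
  rw [Pi.single_apply]

/-- the edge vector -/
def ev {V : Type*} (f : V → ℕ) : Sym2 V → ℕ → ZMod 2 :=
  Sym2.lift ⟨fun u v => ph f u + ph f v, fun _ _ => add_comm _ _⟩

theorem ev_mk {V : Type*} (f : V → ℕ) (u v : V) : ev f s(u, v) = ph f u + ph f v := rfl

theorem ph_sum {V : Type*} (f : V → ℕ) (Z : Finset ℕ) (v : V) :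
    ∑ z ∈ Z, ph f v z = if f v ∈ Z then 1 else 0 := by
  simp only [ph_apply]
  rw [Finset.sum_ite_eq']

theorem ev_sum {V : Type*} (f : V → ℕ) (Z : Finset ℕ) (x y : V) (h : f x ∈ Z ↔ f y ∈ Z) :
    ∑ z ∈ Z, ev f s(x, y) z = 0 := by
  have e : ∑ z ∈ Z, ev f s(x, y) z = (∑ z ∈ Z, ph f x z) + ∑ z ∈ Z, ph f y z := by
    rw [ev_mk, ← Finset.sum_add_distrib]
    rfl
  rw [e, ph_sum, ph_sum]
  by_cases hx : f x ∈ Z
  · rw [if_pos hx, if_pos (h.1 hx)]
    decide
  · rw [if_neg hx, if_neg (fun hh => hx (h.2 hh)), add_zero]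

theorem crs_mem {V : Type*} {G : SimpleGraph V} {C : Set V} {f : V → ℕ} {x y : V}
    (h : s(x, y) ∈ crs G C f) : x ∈ C ∧ y ∈ C ∧ G.Adj x y ∧ f x ≠ f y := by
  obtain ⟨⟨h1, h2⟩, u, hu, v, hv, huv⟩ := h
  refine ⟨h2 x (Sym2.mem_mk_left x y), h2 y (Sym2.mem_mk_right x y), h1, ?_⟩
  intro he
  apply huv
  rcases Sym2.mem_iff.1 hu with rfl | rfl <;> rcases Sym2.mem_iff.1 hv with rfl | rfl
  · rfl
  · exact he
  · exact he.symm
  · rfl

/-- vectors of crossing edges are supported in the set of the colours -/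
theorem ev_supp {V : Type*} {G : SimpleGraph V} {C : Set V} {f : V → ℕ} (T : Set (Sym2 V))
    (hT : T ⊆ crs G C f) : ∀ e ∈ T, ∀ z, z ∉ f '' C → ev f e z = 0 := by
  intro e he z hz
  induction e using Sym2.ind with
  | _ x y =>
    obtain ⟨hx, hy, -, -⟩ := crs_mem (hT he)
    rw [ev_mk, Pi.add_apply, ph_apply, ph_apply, if_neg, if_neg, add_zero]
    · rintro rfl
      exact hz ⟨y, hy, rfl⟩
    · rintro rfl
      exact hz ⟨x, hx, rfl⟩

/-- the rank is less than the number of colours -/
theorem rk_le {V : Type*} (G : SimpleGraph V) (C : Set V) (hne : C.Nonempty) (f : V → ℕ)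
    (hf : (f '' C).Finite) (hE : (crs G C f).Finite) (T : Set (Sym2 V)) (hT : T ⊆ crs G C f) :
    rk (ev f) T + 1 ≤ (f '' C).ncard := by
  have hle := rk_supp (ev f) T (f '' C) hf (ev_supp T hT)
  have hlt : rk (ev f) T ≠ (f '' C).ncard := by
    intro heq
    obtain ⟨v0, hv0⟩ := hne
    have hg := rk_full (ev f) T (hE.subset hT) (f '' C) hf (ev_supp T hT) heq (ph f v0) (by
      intro z hz
      rw [ph_apply, if_neg]
      rintro rfl
      exact hz ⟨v0, hv0, rfl⟩)
    have h2 := functional (ev f) T hf.toFinset (fun e he => by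
      induction e using Sym2.ind with
      | _ x y =>
        obtain ⟨hx, hy, -, -⟩ := crs_mem (hT he)
        exact ev_sum f _ x y ⟨fun _ => hf.mem_toFinset.2 ⟨y, hy, rfl⟩,
          fun _ => hf.mem_toFinset.2 ⟨x, hx, rfl⟩⟩) (ph f v0) hg
    rw [ph_sum, if_pos (hf.mem_toFinset.2 ⟨v0, hv0, rfl⟩)] at h2
    exact one_ne_zero h2
  omega

/-- full rank: no set of colours is separated -/
theorem rk_sep {V : Type*} (G : SimpleGraph V) (C : Set V) (f : V → ℕ)
    (hf : (f '' C).Finite) (hE : (crs G C f).Finite) (T : Set (Sym2 V)) (hT : T ⊆ crs G C f)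
    (hr : rk (ev f) T + 1 = (f '' C).ncard) (Θ : Set ℕ) (h1 : ∃ u ∈ C, f u ∈ Θ)
    (h2 : ∃ v ∈ C, f v ∉ Θ) : ∃ e ∈ T, (∃ x ∈ e, f x ∈ Θ) ∧ ∃ y ∈ e, f y ∉ Θ := by
  classical
  by_contra hno
  push Not at hno
  obtain ⟨u, hu, huΘ⟩ := h1
  obtain ⟨v, hv, hvΘ⟩ := h2
  have hTfin : T.Finite := hE.subset hT
  have hphC : ∀ w ∈ C, ∀ z, z ∉ f '' C → ph f w z = 0 := by
    intro w hw z hz
    rw [ph_apply, if_neg]
    rintro rfl
    exact hz ⟨w, hw, rfl⟩
  obtain ⟨f', hf'⟩ : ∃ f' : Option (Sym2 V) → ℕ → ZMod 2,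
    f' = fun o => o.elim (ph f u) (ev f) := ⟨_, rfl⟩
  obtain ⟨T', hT'⟩ : ∃ T' : Set (Option (Sym2 V)), T' = insert none (some '' T) := ⟨_, rfl⟩
  have himg : f' '' T' = insert (ph f u) (ev f '' T) := by
    rw [hT', Set.image_insert_eq, Set.image_image, hf']
    rfl
  have hT'fin : T'.Finite := by
    rw [hT']
    exact (hTfin.image _).insert _
  have hsupp' : ∀ e ∈ T', ∀ z, z ∉ f '' C → f' e z = 0 := by
    intro e he z hz
    rw [hT'] at he
    rcases he with rfl | ⟨e, he, rfl⟩
    · rw [hf']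
      exact hphC u hu z hz
    · rw [hf']
      exact ev_supp T hT e he z hz
  have hnot : ph f u ∉ Submodule.span (ZMod 2) (ev f '' T) := by
    intro hg
    have h2 := functional (ev f) T hf.toFinset (fun e he => by
      induction e using Sym2.ind with
      | _ x y =>
        obtain ⟨hx, hy, -, -⟩ := crs_mem (hT he)
        exact ev_sum f _ x y ⟨fun _ => hf.mem_toFinset.2 ⟨y, hy, rfl⟩,
          fun _ => hf.mem_toFinset.2 ⟨x, hx, rfl⟩⟩) (ph f u) hg
    rw [ph_sum, if_pos (hf.mem_toFinset.2 ⟨u, hu, rfl⟩)] at h2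
    exact one_ne_zero h2
  have hlt : rk (ev f) T < rk f' T' := by
    unfold rk Set.finrank
    rw [himg]
    have hfd : FiniteDimensional (ZMod 2)
        (Submodule.span (ZMod 2) (insert (ph f u) (ev f '' T))) :=
      FiniteDimensional.span_of_finite _ ((hTfin.image (ev f)).insert _)
    apply Submodule.finrank_lt_finrank_of_lt
    refine lt_of_le_of_ne (Submodule.span_mono (Set.subset_insert _ _)) ?_
    intro he
    apply hnot
    rw [he]
    exact Submodule.subset_span (Set.mem_insert _ _)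
  have hle' := rk_supp f' T' (f '' C) hf hsupp'
  have heq : rk f' T' = (f '' C).ncard := by omega
  have hg := rk_full f' T' hT'fin (f '' C) hf hsupp' heq (ph f v) (hphC v hv)
  have hZ : (f '' C \ Θ).Finite := hf.subset diff_subset
  have h3 := functional f' T' hZ.toFinset (fun e he => by
      rw [hT'] at he
      rcases he with rfl | ⟨e, he, rfl⟩
      · rw [hf']
        show ∑ z ∈ hZ.toFinset, ph f u z = 0
        rw [ph_sum, if_neg]
        intro hh
        exact (hZ.mem_toFinset.1 hh).2 huΘ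
      · rw [hf']
        show ∑ z ∈ hZ.toFinset, ev f e z = 0
        induction e using Sym2.ind with
        | _ x y =>
          obtain ⟨hx, hy, -, -⟩ := crs_mem (hT he)
          refine ev_sum f _ x y ?_
          rw [hZ.mem_toFinset, hZ.mem_toFinset]
          constructor
          · rintro ⟨-, h⟩
            refine ⟨⟨y, hy, rfl⟩, fun h' => h ?_⟩
            exact hno _ he ⟨y, Sym2.mem_mk_right x y, h'⟩ x (Sym2.mem_mk_left x y)
          · rintro ⟨-, h⟩
            refine ⟨⟨x, hx, rfl⟩, fun h' => h ?_⟩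
            exact hno _ he ⟨x, Sym2.mem_mk_left x y, h'⟩ y (Sym2.mem_mk_right x y)) (ph f v) hg
  rw [ph_sum, if_pos (hZ.mem_toFinset.2 ⟨⟨v, hv, rfl⟩, hvΘ⟩)] at h3
  exact one_ne_zero h3

/-- the counting condition -/
theorem rk_count {V : Type*} (G : SimpleGraph V) (C : Set V) (hS : Solid G C) (f : V → ℕ)
    (hf : (f '' C).Finite) (hE : (crs G C f).Finite) (T : Set (Sym2 V)) (hT : T ⊆ crs G C f) :
    2 * ((f '' C).ncard - 1) ≤ (crs G C f \ T).ncard + rk (ev f) T + rk (ev f) T := by
  classical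
  have hTfin : T.Finite := hE.subset hT
  haveI : Fintype (f '' C) := hf.fintype
  let e : (f '' C) → ℕ → ZMod 2 := fun w => Pi.single (w : ℕ) 1
  let r : (f '' C) → (f '' C) → Prop := fun a b => ∃ u v, s(u, v) ∈ T ∧ f u = a ∧ f v = b
  have hspan : ∀ a b, Relation.EqvGen r a b → e a - e b ∈ Submodule.span (ZMod 2) (ev f '' T) := by
    intro a b hab
    induction hab with
    | rel a b h =>
      obtain ⟨u, v, huv, hu, hv⟩ := h
      apply Submodule.subset_span
      refine ⟨s(u, v), huv, ?_⟩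
      rw [ev_mk]
      unfold ph
      rw [hu, hv]
      funext x
      simp only [Pi.add_apply, Pi.sub_apply, e]
      generalize (Pi.single (a : ℕ) (1 : ZMod 2) : ℕ → ZMod 2) x = s
      generalize (Pi.single (b : ℕ) (1 : ZMod 2) : ℕ → ZMod 2) x = t
      revert s t
      decide
    | refl a => rw [sub_self]; exact Submodule.zero_mem _
    | symm a b _ ih =>
      have : e b - e a = -(e a - e b) := by abel
      rw [this]
      exact Submodule.neg_mem _ ih
    | trans a b c _ _ ih1 ih2 =>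
      have : e a - e c = (e a - e b) + (e b - e c) := by abel
      rw [this]
      exact Submodule.add_mem _ ih1 ih2
  haveI : Fintype (Quot r) := Fintype.ofFinite _
  have hcard : Fintype.card (f '' C) = (f '' C).ncard := by
    rw [Fintype.card_eq_nat_card, Nat.card_coe_set_eq]
  have hli : LinearIndependent (ZMod 2) e :=
    (Pi.linearIndependent_single_one ℕ (ZMod 2)).comp _ Subtype.val_injective
  have hrk : (f '' C).ncard ≤ rk (ev f) T + Fintype.card (Quot r) := by
    rw [← hcard, ← finrank_span_eq_card hli]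
    have hle : Submodule.span (ZMod 2) (Set.range e) ≤ Submodule.span (ZMod 2) (ev f '' T) ⊔
        Submodule.span (ZMod 2) (Set.range fun D : Quot r => e D.out) := by
      rw [Submodule.span_le]
      rintro _ ⟨w, rfl⟩
      have h1 : e w = (e w - e (Quot.mk r w).out) + e (Quot.mk r w).out := by abel
      rw [h1]
      apply Submodule.add_mem_sup
      · apply hspan
        apply Quot.eqvGen_exact
        rw [Quot.out_eq]
      · exact Submodule.subset_span ⟨Quot.mk r w, rfl⟩
    haveI : FiniteDimensional (ZMod 2) (Submodule.span (ZMod 2) (ev f '' T)) :=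
      FiniteDimensional.span_of_finite _ (hTfin.image (ev f))
    haveI : FiniteDimensional (ZMod 2) (Submodule.span (ZMod 2)
        (Set.range fun D : Quot r => e D.out)) :=
      FiniteDimensional.span_of_finite _ (Set.finite_range _)
    refine (Submodule.finrank_mono hle).trans ?_
    refine (Submodule.finrank_add_le_finrank_add_finrank _ _).trans ?_
    apply Nat.add_le_add
    · exact le_rfl
    · exact finrank_range_le_card _
  -- the colouring by classes
  obtain ⟨cd, hcd⟩ : ∃ cd : Quot r → ℕ, Function.Injective cd :=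
    ⟨fun D => (Fintype.equivFin (Quot r) D : ℕ), fun a b h =>
      (Fintype.equivFin (Quot r)).injective (Fin.ext h)⟩
  obtain ⟨g, hg⟩ : ∃ g : V → ℕ, ∀ v, ∀ h : v ∈ C, g v = cd (Quot.mk r ⟨f v, v, h, rfl⟩) :=
    ⟨fun v => if h : v ∈ C then cd (Quot.mk r ⟨f v, v, h, rfl⟩) else 0, fun v h => dif_pos h⟩
  have himg : g '' C = Set.range cd := by
    ext z
    constructor
    · rintro ⟨v, hv, rfl⟩
      exact ⟨_, (hg v hv).symm⟩
    · rintro ⟨D, rfl⟩
      obtain ⟨⟨w, v, hv, rfl⟩, rfl⟩ := Quot.exists_rep D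
      exact ⟨v, hv, hg v hv⟩
  have hgf : (g '' C).Finite := by
    rw [himg]; exact Set.finite_range _
  have hgc : (g '' C).ncard = Fintype.card (Quot r) := by
    rw [himg, ← Set.image_univ, Set.ncard_image_of_injective _ hcd, Set.ncard_univ,
      Nat.card_eq_fintype_card]
  have hsub : crs G C g ⊆ crs G C f \ T := by
    intro e' he
    induction e' using Sym2.ind with
    | _ x y =>
      obtain ⟨hx, hy, hadj, hxy⟩ := crs_mem he
      have hfxy : f x ≠ f y := by
        intro h
        apply hxy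
        rw [hg x hx, hg y hy]
        congr 2
        exact Subtype.ext h
      refine ⟨⟨he.1, x, Sym2.mem_mk_left x y, y, Sym2.mem_mk_right x y, hfxy⟩, fun hT' => hxy ?_⟩
      rw [hg x hx, hg y hy]
      congr 1
      exact Quot.sound ⟨x, y, hT', rfl, rfl⟩
  have hgE : (crs G C g).Finite := (hE.subset diff_subset).subset hsub
  have ht := hS.tight g hgf hgE
  have hc := Set.ncard_le_ncard hsub (hE.subset diff_subset)
  rw [hgc] at ht
  omega

theorem s_PACK : S_PACK.{u} := by
  intro V G C hS f hf hE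
  have hn : ∀ T ⊆ crs G C f, rk (ev f) T ≤ (f '' C).ncard - 1 := by
    intro T hT
    have := rk_le G C hS.ne f hf hE T hT
    omega
  obtain ⟨B, hBE, hB1, hB2⟩ := packing (ev f) (ev f) (crs G C f) hE ((f '' C).ncard - 1)
    (hn _ subset_rfl) (hn _ subset_rfl) (fun T hT => rk_count G C hS f hf hE T hT)
  have hpos : 0 < (f '' C).ncard := (Set.ncard_pos hf).2 (hS.ne.image f)
  refine ⟨crs G C f \ B, B, diff_subset, hBE, Set.disjoint_sdiff_left, ?_⟩
  intro Θ h1 h2
  exact ⟨rk_sep G C f hf hE _ diff_subset (by omega) Θ h1 h2,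
    rk_sep G C f hf hE B hBE (by omega) Θ h1 h2⟩

end Pool.Agent.L7h96.CE
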